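import Pool.Agent.H68.KAL.Lay

/-!
# Remez inequality in the mean, one variable
-/

set_option autoImplicit false

namespace Pool.KAL

open Finset Real
open Pool.Agent.H49.Ent Pool.Agent.H32.Dense Pool.STK Pool.KAF

namespace RIM

/-- The number of grid points where the polynomial is small. -/
lemma count (hR : RMGStmt) (D : ℕ) (hD : 1 ≤ D) (N : ℕ) (hN : 1 ≤ N) (P : Polynomial ℝ)
    (hP : P.natDegree ≤ D) (S : ℝ) (hS : 0 < S) (s : ℝ) (hs : s ∈ Set.Icc (0 : ℝ) 1)
    (hSs : S ≤ |P.eval s|) (ε : ℝ) (hε : 0 < ε) (hεN : 1 ≤ ε * N) :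
    (((range N).filter fun t : ℕ => |P.eval ((t : ℝ) / N)| ≤ ε ^ D * S).card : ℝ) ≤
      D * (D + 2) * (ε * N) := by
  classical
  have hN0 : (0 : ℝ) < N := by exact_mod_cast hN
  have hD0 : (1 : ℝ) ≤ D := by exact_mod_cast hD
  set A := (range N).filter fun t : ℕ => |P.eval ((t : ℝ) / N)| ≤ ε ^ D * S with hA
  by_cases hsmall : A.card ≤ D
  · have h1 : (A.card : ℝ) ≤ D := by exact_mod_cast hsmall
    calc (A.card : ℝ) ≤ D := h1
      _ = D * 1 * 1 := by ring
      _ ≤ D * (D + 2) * (ε * N) := by
          refine mul_le_mul (mul_le_mul_of_nonneg_left ?_ (by linarith)) hεN (by norm_num)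
            (by positivity)
          linarith
  · push Not at hsmall
    set k := (A.card - 1) / D with hk
    have hk1 : 1 ≤ k := by
      rw [hk, Nat.one_le_div_iff (by omega)]
      omega
    have hk2 : k * D + 1 ≤ A.card := by
      have h0 := Nat.div_mul_le_self (A.card - 1) D
      rw [← hk] at h0
      omega
    have hk3 : A.card ≤ D * (k + 1) := by
      have h1 := Nat.lt_div_mul_add (a := A.card - 1) (b := D) (by omega)
      have h2 : D * (k + 1) = (A.card - 1) / D * D + D := by
        rw [hk]
        ring
      omega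
    set Q : Polynomial ℝ := P.comp (Polynomial.C (1 / (N : ℝ)) * Polynomial.X) with hQ
    have hQe : ∀ x : ℝ, Q.eval x = P.eval (x / N) := by
      intro x
      rw [hQ, Polynomial.eval_comp, Polynomial.eval_mul, Polynomial.eval_C, Polynomial.eval_X]
      congr 1
      ring
    have hQd : Q.natDegree ≤ D := by
      rw [hQ, Polynomial.natDegree_comp]
      have h1 : (Polynomial.C (1 / (N : ℝ)) * Polynomial.X).natDegree ≤ 1 :=
        (Polynomial.natDegree_C_mul_le _ _).trans Polynomial.natDegree_X_le
      calc P.natDegree * (Polynomial.C (1 / (N : ℝ)) * Polynomial.X).natDegree ≤ D * 1 :=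
            Nat.mul_le_mul hP h1
        _ = D := mul_one D
    have hcard : (A.image fun t : ℕ => (t : ℤ)).card = A.card :=
      Finset.card_image_of_injective _ Nat.cast_injective
    have h3 := hR D k Q (A.image fun t : ℕ => (t : ℤ)) (s * N) N (ε ^ D * S) hQd hk1
      (by rw [hcard]; exact hk2)
      (by
        intro e he
        obtain ⟨t, ht, rfl⟩ := Finset.mem_image.1 he
        have ht' : t < N := by
          rw [hA, Finset.mem_filter, Finset.mem_range] at ht
          exact ht.1
        have ht2 : (t : ℝ) ≤ N := by exact_mod_cast ht'.le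
        have ht0 : (0 : ℝ) ≤ t := Nat.cast_nonneg t
        have hs1 := hs.1
        have hs2 := hs.2
        push_cast
        rw [abs_le]
        constructor
        · nlinarith [mul_nonneg hs1 hN0.le]
        · nlinarith [mul_le_mul_of_nonneg_right hs2 hN0.le])
      (by
        intro e he
        obtain ⟨t, ht, rfl⟩ := Finset.mem_image.1 he
        rw [hA, Finset.mem_filter] at ht
        have := ht.2
        push_cast
        rw [hQe]
        exact this)
    rw [hQe, mul_div_assoc, div_self hN0.ne', mul_one] at h3
    have hk0 : (0 : ℝ) < k := by exact_mod_cast hk1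
    have h4 : S ≤ ((D : ℝ) + 1) * (N * ε / k) ^ D * S := by
      calc S ≤ |P.eval s| := hSs
        _ ≤ _ := h3
        _ = ((D : ℝ) + 1) * (N * ε / k) ^ D * S := by
            rw [div_pow, div_pow, mul_pow]
            ring
    have h5 : 1 ≤ ((D : ℝ) + 1) * (N * ε / k) ^ D := by
      by_contra hcon
      push Not at hcon
      nlinarith [h4, hS]
    have h6 : (k : ℝ) ≤ (D + 1) * (N * ε) := by
      by_contra hcon
      push Not at hcon
      have h7 : N * ε / k < 1 / ((D : ℝ) + 1) := by
        rw [div_lt_div_iff₀ hk0 (by positivity)]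
        linarith
      have h8 : (0 : ℝ) ≤ N * ε / k := by positivity
      have h9 : (N * ε / k) ^ D ≤ N * ε / k := by
        have h10 : N * ε / k ≤ 1 := by
          refine h7.le.trans ?_
          rw [div_le_one (by positivity)]
          linarith
        calc (N * ε / k) ^ D ≤ (N * ε / k) ^ 1 := pow_le_pow_of_le_one h8 h10 hD
          _ = N * ε / k := pow_one _
      have h10 : ((D : ℝ) + 1) * (N * ε / k) ^ D < 1 := by
        calc ((D : ℝ) + 1) * (N * ε / k) ^ D ≤ ((D : ℝ) + 1) * (N * ε / k) :=
              mul_le_mul_of_nonneg_left h9 (by positivity)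
          _ < ((D : ℝ) + 1) * (1 / ((D : ℝ) + 1)) :=
              mul_lt_mul_of_pos_left h7 (by positivity)
          _ = 1 := by field_simp
      linarith
    have h7 : (A.card : ℝ) ≤ D * (k + 1) := by exact_mod_cast hk3
    nlinarith [h6, h7, hεN, hD0]

end RIM

/-- **Remez inequality in the mean**, one variable. -/
theorem rim_thm (hR : RMGStmt) (hG : GVIStmt) : RIMStmt := by
  intro D
  refine ⟨Real.log (1 + 4 * (D * (D + 2))), Real.log_nonneg (by nlinarith [Nat.cast_nonneg (α := ℝ) D]), ?_⟩
  intro Ω _ p N T P S hp hT hP hS hex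
  obtain ⟨s, hs, hSs⟩ := hex
  have hne : Nonempty Ω := by
    by_contra h
    rw [not_nonempty_iff] at h
    have h1 := hp.sum_one
    simp at h1
  obtain ⟨ω₀⟩ := hne
  have hN : 1 ≤ N := by
    have := hT ω₀
    omega
  have hN0 : (0 : ℝ) < N := by exact_mod_cast hN
  rcases Nat.eq_zero_or_pos D with hD | hD
  · subst hD
    simp only [Nat.cast_zero, mul_zero, zero_mul, sub_zero, pow_zero, div_one]
    have h1 : Ex p (fun _ => Real.log S) ≤ Ex p (fun ω =>
        Real.log (max |P.eval ((T ω : ℝ) / N)| S)) := by
      refine Ex_mono hp.nonneg fun ω _ => ?_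
      exact Real.log_le_log hS (le_max_right _ _)
    rwa [Ex_const hp.sum_one] at h1
  · set y : ℕ → ℝ := fun t => max |P.eval ((t : ℝ) / N)| (S / N ^ D) / S with hy
    have hypos : ∀ t, 0 < y t := fun t =>
      div_pos (lt_of_lt_of_le (by positivity) (le_max_right _ _)) hS
    have hylow : ∀ t, ((1 / (N : ℝ)) ^ D) ≤ y t := by
      intro t
      rw [hy]
      simp only
      rw [le_div_iff₀ hS]
      refine le_trans (le_of_eq ?_) (le_max_right _ _)
      rw [one_div, inv_pow]
      field_simp
    have h4N : (N : ℝ) < 4 ^ N := by exact_mod_cast Nat.lt_pow_self (by norm_num : 1 < 4)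
    have hmean := LAY.mean_layer hG hp T (range N) (fun ω => Finset.mem_range.2 (hT ω)) D N hD y
      ((D : ℝ) * (D + 2)) (by positivity)
      (by
        intro t _
        refine lt_of_lt_of_le ?_ (hylow t)
        refine pow_lt_pow_left₀ ?_ (by positivity) (by omega)
        rw [div_pow, one_pow]
        exact one_div_lt_one_div_of_lt hN0 h4N)
      (by
        intro j _
        rw [Finset.card_range]
        by_cases hj : 1 ≤ (1 / 4 : ℝ) ^ j * N
        · have h1 := RIM.count hR D hD N hN P hP S hS s hs hSs ((1 / 4 : ℝ) ^ j) (by positivity) hj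
          refine le_trans ?_ (h1.trans (le_of_eq (by ring)))
          have h2 : ((range N).filter fun t => y t ≤ ((1 / 4 : ℝ) ^ j) ^ D) ⊆
              ((range N).filter fun t : ℕ =>
                |P.eval ((t : ℝ) / N)| ≤ ((1 / 4 : ℝ) ^ j) ^ D * S) := by
            intro t ht
            rw [Finset.mem_filter] at ht ⊢
            refine ⟨ht.1, ?_⟩
            have h3 := ht.2
            rw [hy] at h3
            simp only at h3
            rw [div_le_iff₀ hS] at h3
            exact (le_max_left _ _).trans h3
          exact_mod_cast Finset.card_le_card h2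
        · push Not at hj
          have h1 : ((range N).filter fun t => y t ≤ ((1 / 4 : ℝ) ^ j) ^ D) = ∅ := by
            rw [Finset.filter_eq_empty_iff]
            intro t _ hcon
            have h2 := (hylow t).trans hcon
            have h3 : (1 / 4 : ℝ) ^ j < 1 / N := by
              rw [lt_div_iff₀ hN0]
              exact hj
            have h4 : ((1 / 4 : ℝ) ^ j) ^ D < (1 / (N : ℝ)) ^ D :=
              pow_lt_pow_left₀ h3 (by positivity) (by omega)
            linarith
          rw [h1, Finset.card_empty]
          push_cast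
          positivity)
    rw [Finset.card_range] at hmean
    have h1 : Ex p (fun ω => Real.log (y (T ω))) =
        Ex p (fun ω => Real.log (max |P.eval ((T ω : ℝ) / N)| (S / N ^ D))) - Real.log S := by
      have h2 := Ex_sub p (fun ω => Real.log (max |P.eval ((T ω : ℝ) / N)| (S / N ^ D)))
        (fun _ => Real.log S)
      rw [Ex_const hp.sum_one] at h2
      rw [← h2]
      congr 1
      funext ω
      rw [hy]
      simp only
      rw [Real.log_div (ne_of_gt (lt_of_lt_of_le (by positivity) (le_max_right _ _))) hS.ne']
    rw [h1] at hmean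
    linarith

end Pool.KAL
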