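import Pool.Agent.H68.KAL.Lay

/-!
# Remez inequality in the mean, several variables
-/

set_option autoImplicit false

namespace Pool.KAL

open Finset Real
open Pool.Agent.H49.Ent Pool.Agent.H32.Dense Pool.STK Pool.KAF

/-- **Remez inequality in the mean**, several variables, with a given truncation exponent `K`. -/
def RIN2Stmt : Prop :=
  ∀ n D K : ℕ, ∃ C : ℝ, 0 ≤ C ∧ ∀ (Ω : Type) [Fintype Ω] (p : Ω → ℝ) (N : ℕ)
    (Y : Ω → Fin n → Fin N) (P : MvPolynomial (Fin n) ℝ) (S : ℝ), IsLaw p →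
    (∀ i, P.degreeOf i ≤ D) → 0 < S →
    (∃ s : Fin n → ℝ, (∀ i, s i ∈ Set.Icc (0 : ℝ) 1) ∧ S ≤ |MvPolynomial.eval s P|) →
    Real.log S - C * ((n * Real.log N - H p Y) + 1) ≤
      Ex p (fun ω => Real.log (max
        |MvPolynomial.eval (fun i => ((Y ω i : ℕ) : ℝ) / N) P| (S / (N : ℝ) ^ K)))

/-- The statement `RINStmt` holds with `C = 0`. -/
theorem rin_thm : RINStmt := by
  intro n D
  refine ⟨0, ?_⟩
  intro Ω _ p N Y P S hp _ hS _
  simp only [Nat.cast_zero, zero_mul, sub_zero, pow_zero, div_one]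
  have h1 : Ex p (fun _ => Real.log S) ≤ Ex p (fun ω => Real.log (max
      |MvPolynomial.eval (fun i => ((Y ω i : ℕ) : ℝ) / N) P| S)) := by
    refine Ex_mono hp.nonneg fun ω _ => ?_
    exact Real.log_le_log hS (le_max_right _ _)
  rwa [Ex_const hp.sum_one] at h1

namespace RIN

/-- Scaling of the variables. -/
noncomputable def scale {n : ℕ} (P : MvPolynomial (Fin n) ℝ) (a : ℝ) : MvPolynomial (Fin n) ℝ :=
  ∑ m ∈ P.support, MvPolynomial.monomial m (MvPolynomial.coeff m P * ∏ i, a ^ (m i))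

lemma eval_scale {n : ℕ} (P : MvPolynomial (Fin n) ℝ) (a : ℝ) (x : Fin n → ℝ) :
    MvPolynomial.eval x (scale P a) = MvPolynomial.eval (fun i => a * x i) P := by
  rw [scale, map_sum, MvPolynomial.eval_eq' (fun i => a * x i) P]
  refine Finset.sum_congr rfl fun m _ => ?_
  rw [MvPolynomial.eval_monomial, Finsupp.prod_fintype _ _ (by intro i; exact pow_zero _),
    mul_assoc, ← Finset.prod_mul_distrib]
  congr 1
  refine Finset.prod_congr rfl fun i _ => ?_
  rw [mul_pow]

lemma degreeOf_scale {n : ℕ} (P : MvPolynomial (Fin n) ℝ) (a : ℝ) (i : Fin n) :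
    (scale P a).degreeOf i ≤ P.degreeOf i := by
  rw [scale]
  refine (MvPolynomial.degreeOf_sum_le i _ _).trans ?_
  refine Finset.sup_le fun m hm => ?_
  by_cases h : MvPolynomial.coeff m P * ∏ i, a ^ (m i) = 0
  · rw [h, map_zero, MvPolynomial.degreeOf_zero]
    exact Nat.zero_le _
  · rw [MvPolynomial.degreeOf_monomial_eq m i h]
    exact MvPolynomial.monomial_le_degreeOf i hm

/-- Counts of the layers. -/
lemma count {n D C : ℕ} (K : ℕ) (hK : 1 ≤ K) (hC : 1 ≤ C)
    (hR : ∀ (N : ℕ) (P : MvPolynomial (Fin n) ℝ) (ρ R M : ℝ),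
      (∀ i, P.degreeOf i ≤ D) → 0 < ρ → ρ ≤ 1 → (C : ℝ) ≤ ρ ^ C * N → 1 ≤ R → 0 ≤ M →
      ρ * (N : ℝ) ^ n ≤ ((univ.filter fun x : Fin n → Fin N =>
        |MvPolynomial.eval (fun i => ((x i : ℕ) : ℝ)) P| ≤ M).card : ℝ) →
      ∀ y : Fin n → ℝ, (∀ i, |y i| ≤ R * N) →
        |MvPolynomial.eval y P| ≤ C * (R / ρ) ^ C * M)
    (N : ℕ) (hN : 1 ≤ N) (P : MvPolynomial (Fin n) ℝ) (hP : ∀ i, P.degreeOf i ≤ D) (S : ℝ)
    (hS : 0 < S) (s : Fin n → ℝ) (hs : ∀ i, s i ∈ Set.Icc (0 : ℝ) 1)
    (hSs : S ≤ |MvPolynomial.eval s P|) (ε : ℝ) (hε : 0 < ε) (hε1 : ε ≤ 1)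
    (hεN : 1 ≤ ε ^ C * N) :
    ((univ.filter fun x : Fin n → Fin N =>
      |MvPolynomial.eval (fun i => ((x i : ℕ) : ℝ) / N) P| ≤ ε ^ (K * C) * S).card : ℝ) ≤
      C * ε * (N : ℝ) ^ n := by
  classical
  have hN0 : (0 : ℝ) < N := by exact_mod_cast hN
  have hC0 : (1 : ℝ) ≤ C := by exact_mod_cast hC
  have hNn : (0 : ℝ) < (N : ℝ) ^ n := pow_pos hN0 n
  set A := univ.filter fun x : Fin n → Fin N =>
    |MvPolynomial.eval (fun i => ((x i : ℕ) : ℝ) / N) P| ≤ ε ^ (K * C) * S with hA
  by_contra hcon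
  push Not at hcon
  set ρ : ℝ := A.card / (N : ℝ) ^ n with hρ
  have hρ1 : (C : ℝ) * ε < ρ := by
    rw [hρ, lt_div_iff₀ hNn]
    exact hcon
  have hρ0 : 0 < ρ := lt_trans (by positivity) hρ1
  have hρle : ρ ≤ 1 := by
    rw [hρ, div_le_one hNn]
    have h1 : A.card ≤ (univ : Finset (Fin n → Fin N)).card := Finset.card_le_univ _
    rw [Finset.card_univ, Fintype.card_fun, Fintype.card_fin, Fintype.card_fin] at h1
    exact_mod_cast h1
  have hCpow : (C : ℝ) ≤ (C : ℝ) ^ C := by
    calc (C : ℝ) = (C : ℝ) ^ 1 := (pow_one _).symm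
      _ ≤ (C : ℝ) ^ C := pow_le_pow_right₀ hC0 hC
  have h1 : (C : ℝ) ≤ ρ ^ C * N := by
    calc (C : ℝ) ≤ (C : ℝ) ^ C * 1 := by linarith
      _ ≤ (C : ℝ) ^ C * (ε ^ C * N) := mul_le_mul_of_nonneg_left hεN (by positivity)
      _ = ((C : ℝ) * ε) ^ C * N := by rw [mul_pow]; ring
      _ ≤ ρ ^ C * N :=
        mul_le_mul_of_nonneg_right (pow_le_pow_left₀ (by positivity) hρ1.le C) hN0.le
  have hev : ∀ x : Fin n → ℝ, MvPolynomial.eval x (scale P (1 / (N : ℝ))) =
      MvPolynomial.eval (fun i => x i / N) P := by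
    intro x
    rw [eval_scale]
    congr 1
    congr 1
    funext i
    ring
  have h2 := hR N (scale P (1 / (N : ℝ))) ρ 1 (ε ^ (K * C) * S)
    (fun i => (degreeOf_scale P _ i).trans (hP i)) hρ0 hρle h1 le_rfl (by positivity)
    (by
      rw [hρ, div_mul_cancel₀ _ hNn.ne']
      simp only [hev]
      exact le_of_eq rfl)
    (fun i => N * s i)
    (by
      intro i
      rw [one_mul, abs_mul, abs_of_pos hN0, abs_of_nonneg (hs i).1]
      exact mul_le_of_le_one_right hN0.le (hs i).2)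
  have h3 : MvPolynomial.eval (fun i => N * s i) (scale P (1 / (N : ℝ))) =
      MvPolynomial.eval s P := by
    rw [hev]
    congr 1
    congr 1
    funext i
    field_simp
  rw [h3] at h2
  have h4 : S ≤ C * (1 / ρ) ^ C * (ε ^ (K * C) * S) := hSs.trans h2
  have h5 : 1 ≤ (C : ℝ) * (ε ^ K / ρ) ^ C := by
    by_contra h6
    push Not at h6
    have h7 : (C : ℝ) * (1 / ρ) ^ C * (ε ^ (K * C) * S) = (C : ℝ) * (ε ^ K / ρ) ^ C * S := by
      rw [pow_mul, div_pow, div_pow]
      ring
    rw [h7] at h4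
    nlinarith [h4, h6, hS]
  have h6 : ε ^ K ≤ ε := by
    calc ε ^ K ≤ ε ^ 1 := pow_le_pow_of_le_one hε.le hε1 hK
      _ = ε := pow_one _
  have h7 : ε ^ K / ρ < 1 / C := by
    rw [div_lt_div_iff₀ hρ0 (by linarith)]
    nlinarith [h6, hρ1, hC0]
  have h8 : 0 ≤ ε ^ K / ρ := by positivity
  have h9 : (ε ^ K / ρ) ^ C ≤ ε ^ K / ρ := by
    have h10 : ε ^ K / ρ ≤ 1 := by
      refine h7.le.trans ?_
      rw [div_le_one (by linarith)]
      exact hC0
    calc (ε ^ K / ρ) ^ C ≤ (ε ^ K / ρ) ^ 1 := pow_le_pow_of_le_one h8 h10 hC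
      _ = ε ^ K / ρ := pow_one _
  have h10 : (C : ℝ) * (ε ^ K / ρ) ^ C < 1 := by
    calc (C : ℝ) * (ε ^ K / ρ) ^ C ≤ C * (ε ^ K / ρ) :=
          mul_le_mul_of_nonneg_left h9 (by linarith)
      _ < C * (1 / C) := mul_lt_mul_of_pos_left h7 (by linarith)
      _ = 1 := by field_simp
  linarith

end RIN

/-- **Remez inequality in the mean**, several variables. -/
theorem rin2_thm (hR : RMNStmt) (hG : GVIStmt) : RIN2Stmt := by
  intro n D K
  obtain ⟨C, hC, hRn⟩ := hR n D
  have hC0 : (1 : ℝ) ≤ C := by exact_mod_cast hC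
  set l : ℝ := Real.log (1 + 4 * (C : ℝ)) with hl
  have hl0 : 0 ≤ l := Real.log_nonneg (by linarith)
  refine ⟨2 * (K * C) * (1 + l), by positivity, ?_⟩
  intro Ω _ p N Y P S hp hP hS hex
  obtain ⟨s, hs, hSs⟩ := hex
  have hΔ : 0 ≤ n * Real.log N - H p Y := by
    have h1 := hG Ω (Fin n → Fin N) p Y univ (fun _ => 0) hp (fun ω => Finset.mem_univ _)
    rw [Ex_const hp.sum_one] at h1
    simp only [Real.exp_zero, Finset.sum_const, nsmul_eq_mul, mul_one] at h1
    rw [Finset.card_univ, Fintype.card_fun, Fintype.card_fin, Fintype.card_fin] at h1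
    push_cast at h1
    rw [Real.log_pow] at h1
    by_cases h0 : ((N : ℝ) ^ n) = 0
    · rw [h0, div_zero, Real.log_zero] at h1
      linarith
    · rw [div_self h0, Real.log_one] at h1
      linarith
  rcases Nat.eq_zero_or_pos K with hK | hK
  · subst hK
    simp only [Nat.cast_zero, zero_mul, mul_zero, sub_zero, pow_zero, div_one]
    have h1 : Ex p (fun _ => Real.log S) ≤ Ex p (fun ω => Real.log (max
        |MvPolynomial.eval (fun i => ((Y ω i : ℕ) : ℝ) / N) P| S)) := by
      refine Ex_mono hp.nonneg fun ω _ => ?_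
      exact Real.log_le_log hS (le_max_right _ _)
    rwa [Ex_const hp.sum_one] at h1
  have hne : Nonempty Ω := by
    by_contra h
    rw [not_nonempty_iff] at h
    have h1 := hp.sum_one
    simp at h1
  obtain ⟨ω₀⟩ := hne
  rcases Nat.eq_zero_or_pos N with hN | hN
  · subst hN
    have hn : n = 0 := by
      by_contra hn
      exact (Y ω₀ ⟨0, Nat.pos_of_ne_zero hn⟩).elim0
    subst hn
    have h1 : Ex p (fun _ => Real.log S) ≤ Ex p (fun ω => Real.log (max
        |MvPolynomial.eval (fun i => ((Y ω i : ℕ) : ℝ) / (0 : ℕ)) P|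
          (S / ((0 : ℕ) : ℝ) ^ K))) := by
      refine Ex_mono hp.nonneg fun ω _ => ?_
      refine Real.log_le_log hS (le_max_of_le_left ?_)
      have h2 : (fun i => ((Y ω i : ℕ) : ℝ) / ((0 : ℕ) : ℝ)) = s := by
        funext i
        exact i.elim0
      rw [h2]
      exact hSs
    rw [Ex_const hp.sum_one] at h1
    have h2 : 0 ≤ 2 * ((K : ℝ) * C) * (1 + l) *
        (((0 : ℕ) : ℝ) * Real.log ((0 : ℕ) : ℝ) - H p Y + 1) :=
      mul_nonneg (by positivity) (by linarith)
    exact (sub_le_self _ h2).trans h1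
  · have hN0 : (0 : ℝ) < N := by exact_mod_cast hN
    set y : (Fin n → Fin N) → ℝ := fun x =>
      max |MvPolynomial.eval (fun i => ((x i : ℕ) : ℝ) / N) P| (S / (N : ℝ) ^ K) / S with hy
    have hylow : ∀ x, ((1 / (N : ℝ)) ^ K) ≤ y x := by
      intro x
      rw [hy]
      simp only
      rw [le_div_iff₀ hS]
      refine le_trans (le_of_eq ?_) (le_max_right _ _)
      rw [one_div, inv_pow]
      field_simp
    have h4N : (N : ℝ) < 4 ^ N := by exact_mod_cast Nat.lt_pow_self (by norm_num : 1 < 4)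
    have hKC : 1 ≤ K * C := Nat.one_le_iff_ne_zero.2 (Nat.mul_ne_zero (by omega) (by omega))
    have hmean := LAY.mean_layer hG hp Y univ (fun ω => Finset.mem_univ _) (K * C) N hKC y
      (C : ℝ) (by positivity)
      (by
        intro x _
        refine lt_of_lt_of_le ?_ (hylow x)
        rw [Nat.mul_comm K C, pow_mul]
        refine pow_lt_pow_left₀ ?_ (by positivity) (by omega)
        calc ((1 / 4 : ℝ) ^ N) ^ C ≤ ((1 / 4 : ℝ) ^ N) ^ 1 :=
              pow_le_pow_of_le_one (by positivity) (pow_le_one₀ (by norm_num) (by norm_num)) hC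
          _ = (1 / 4 : ℝ) ^ N := pow_one _
          _ < 1 / N := by
              rw [div_pow, one_pow]
              exact one_div_lt_one_div_of_lt hN0 h4N)
      (by
        intro j _
        have hcard : ((univ : Finset (Fin n → Fin N)).card : ℝ) = (N : ℝ) ^ n := by
          rw [Finset.card_univ, Fintype.card_fun, Fintype.card_fin, Fintype.card_fin]
          push_cast
          rfl
        rw [hcard]
        by_cases hj : 1 ≤ ((1 / 4 : ℝ) ^ j) ^ C * N
        · have h1 := RIN.count K hK hC hRn N hN P hP S hS s hs hSs ((1 / 4 : ℝ) ^ j)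
            (by positivity) (pow_le_one₀ (by norm_num) (by norm_num)) hj
          refine le_trans ?_ h1
          have h2 : (univ.filter fun x => y x ≤ ((1 / 4 : ℝ) ^ j) ^ (K * C)) ⊆
              (univ.filter fun x : Fin n → Fin N =>
                |MvPolynomial.eval (fun i => ((x i : ℕ) : ℝ) / N) P| ≤
                  ((1 / 4 : ℝ) ^ j) ^ (K * C) * S) := by
            intro x hx
            rw [Finset.mem_filter] at hx ⊢
            refine ⟨hx.1, ?_⟩
            have h3 := hx.2
            rw [hy] at h3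
            simp only at h3
            rw [div_le_iff₀ hS] at h3
            exact (le_max_left _ _).trans h3
          exact_mod_cast Finset.card_le_card h2
        · push Not at hj
          have h1 : (univ.filter fun x => y x ≤ ((1 / 4 : ℝ) ^ j) ^ (K * C)) = ∅ := by
            rw [Finset.filter_eq_empty_iff]
            intro x _ hcon
            have h2 := (hylow x).trans hcon
            have h3 : ((1 / 4 : ℝ) ^ j) ^ C < 1 / N := by
              rw [lt_div_iff₀ hN0]
              exact hj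
            have h4 : ((1 / 4 : ℝ) ^ j) ^ (K * C) < (1 / (N : ℝ)) ^ K := by
              rw [Nat.mul_comm K C, pow_mul]
              exact pow_lt_pow_left₀ h3 (by positivity) (by omega)
            linarith
          rw [h1, Finset.card_empty]
          push_cast
          positivity)
    have hcard : Real.log ((univ : Finset (Fin n → Fin N)).card : ℝ) = n * Real.log N := by
      rw [Finset.card_univ, Fintype.card_fun, Fintype.card_fin, Fintype.card_fin]
      push_cast
      rw [Real.log_pow]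
    rw [hcard] at hmean
    have h1 : Ex p (fun ω => Real.log (y (Y ω))) =
        Ex p (fun ω => Real.log (max |MvPolynomial.eval (fun i => ((Y ω i : ℕ) : ℝ) / N) P|
          (S / (N : ℝ) ^ K))) - Real.log S := by
      have h2 := Ex_sub p (fun ω => Real.log
        (max |MvPolynomial.eval (fun i => ((Y ω i : ℕ) : ℝ) / N) P| (S / (N : ℝ) ^ K)))
        (fun _ => Real.log S)
      rw [Ex_const hp.sum_one] at h2
      rw [← h2]
      congr 1
      funext ω
      rw [hy]
      simp only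
      rw [Real.log_div (ne_of_gt (lt_of_lt_of_le (by positivity) (le_max_right _ _))) hS.ne']
    rw [h1] at hmean
    push_cast at hmean
    rw [← hl] at hmean
    have h3 : 2 * ((K : ℝ) * C) * ((n * Real.log N - H p Y) + l) ≤
        2 * ((K : ℝ) * C) * (1 + l) * ((n * Real.log N - H p Y) + 1) := by
      rw [mul_assoc (2 * ((K : ℝ) * C))]
      refine mul_le_mul_of_nonneg_left ?_ (by positivity)
      nlinarith [mul_nonneg hl0 hΔ]
    linarith

end Pool.KAL
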