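import Pool.Agent.H68.KAL.RIM
import Pool.Agent.H77.KAL.RMN

/-!
# Remez inequality in the mean, several variables, with explicit coefficient
-/

set_option autoImplicit false

namespace Pool.KAL

open Finset Real
open Pool.Agent.H49.Ent Pool.Agent.H32.Dense Pool.STK Pool.KAF

/-- **Remez inequality in the mean**, several variables: for every `K ≥ 2 D` the coefficient is
`K` and the truncation exponent is `K`. -/
def RIKStmt : Prop :=
  ∀ n D K : ℕ, 2 * D ≤ K → ∃ C : ℝ, 0 ≤ C ∧ ∀ (Ω : Type) [Fintype Ω] (p : Ω → ℝ) (N : ℕ)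
    (Y : Ω → Fin n → Fin N) (P : MvPolynomial (Fin n) ℝ) (S : ℝ), IsLaw p →
    (∀ i, P.degreeOf i ≤ D) → 0 < S →
    (∃ s : Fin n → ℝ, (∀ i, s i ∈ Set.Icc (0 : ℝ) 1) ∧ S ≤ |MvPolynomial.eval s P|) →
    Real.log S - K * ((n * Real.log N - H p Y) + C) ≤
      Ex p (fun ω => Real.log (max
        |MvPolynomial.eval (fun i => ((Y ω i : ℕ) : ℝ) / N) P| (S / (N : ℝ) ^ K)))

namespace RIK

/-- The weight `u ^ (-1 / K)`. -/
noncomputable def wt (K : ℕ) (u : ℝ) : ℝ := Real.exp (-(Real.log u) / K)

lemma wt_pos (K : ℕ) (u : ℝ) : 0 < wt K u := Real.exp_pos _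

lemma wt_anti {K : ℕ} {u v : ℝ} (hu : 0 < u) (h : u ≤ v) : wt K v ≤ wt K u := by
  refine Real.exp_le_exp.2 ?_
  refine div_le_div_of_nonneg_right ?_ (Nat.cast_nonneg K)
  exact neg_le_neg (Real.log_le_log hu h)

lemma wt_one (K : ℕ) : wt K 1 = 1 := by
  unfold wt
  rw [Real.log_one, neg_zero, zero_div, Real.exp_zero]

lemma wt_le_one {K : ℕ} {u : ℝ} (h : 1 ≤ u) : wt K u ≤ 1 := by
  have := wt_anti (K := K) one_pos h
  rwa [wt_one] at this

lemma wt_mul {K : ℕ} {u v : ℝ} (hu : 0 < u) (hv : 0 < v) : wt K (u * v) = wt K u * wt K v := by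
  unfold wt
  rw [Real.log_mul hu.ne' hv.ne', ← Real.exp_add]
  congr 1
  ring

lemma wt_pow {K N : ℕ} (hK : 1 ≤ K) (hN : 1 ≤ N) : wt K ((1 / (N : ℝ)) ^ K) = N := by
  have hK0 : (0 : ℝ) < K := by exact_mod_cast hK
  have hN0 : (0 : ℝ) < N := by exact_mod_cast hN
  unfold wt
  rw [Real.log_pow, one_div, Real.log_inv]
  have : -(K * -Real.log (N : ℝ)) / K = Real.log N := by
    field_simp
  rw [this, Real.exp_log hN0]

lemma wt_comp {K D : ℕ} {u : ℝ} (hD : 1 ≤ D) (hDK : 2 * D ≤ K) :
    wt K u ≤ 1 + Real.exp (-(Real.log u) / (2 * D)) := by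
  have hD0 : (0 : ℝ) < D := by exact_mod_cast hD
  have hK0 : (2 * (D : ℝ)) ≤ K := by exact_mod_cast hDK
  by_cases h : 0 ≤ Real.log u
  · have h1 : wt K u ≤ 1 := by
      unfold wt
      rw [← Real.exp_zero]
      refine Real.exp_le_exp.2 ?_
      rw [neg_div]
      have : 0 ≤ Real.log u / K := div_nonneg h (Nat.cast_nonneg K)
      linarith
    have h2 := Real.exp_pos (-(Real.log u) / (2 * D))
    linarith
  · push Not at h
    have h1 : wt K u ≤ Real.exp (-(Real.log u) / (2 * D)) := by
      unfold wt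
      refine Real.exp_le_exp.2 ?_
      exact div_le_div_of_nonneg_left (by linarith) (by linarith) hK0
    linarith

/-- One variable. -/
lemma one_var (hR : RMGStmt) (D K : ℕ) (hK : 1 ≤ K) (hDK : 2 * D ≤ K) (N : ℕ) (hN : 1 ≤ N)
    (P : Polynomial ℝ) (hP : P.natDegree ≤ D) (S : ℝ) (hS : 0 < S) (s : ℝ)
    (hs : s ∈ Set.Icc (0 : ℝ) 1) (hSs : S ≤ |P.eval s|) :
    ∑ t ∈ range N, wt K (max (|P.eval ((t : ℝ) / N)| / S) ((1 / (N : ℝ)) ^ K)) ≤
      (2 + 5 * (D * (D + 2))) * N := by
  classical
  have hN0 : (0 : ℝ) < N := by exact_mod_cast hN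
  rcases Nat.eq_zero_or_pos D with hD | hD
  · subst hD
    have h1 : ∀ x, P.eval x = P.eval s := by
      intro x
      rw [Polynomial.eq_C_of_natDegree_le_zero hP]
      simp
    have h2 : ∑ t ∈ range N, wt K (max (|P.eval ((t : ℝ) / N)| / S) ((1 / (N : ℝ)) ^ K)) ≤
        ∑ t ∈ range N, (1 : ℝ) := by
      refine Finset.sum_le_sum fun t _ => wt_le_one (le_max_of_le_left ?_)
      rw [h1, le_div_iff₀ hS, one_mul]
      exact hSs
    rw [Finset.sum_const, nsmul_eq_mul, mul_one, Finset.card_range] at h2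
    refine h2.trans ?_
    push_cast
    nlinarith
  · have hD0 : (1 : ℝ) ≤ D := by exact_mod_cast hD
    set y : ℕ → ℝ := fun t => max (|P.eval ((t : ℝ) / N)| / S) ((1 / (N : ℝ)) ^ D) with hy
    have hylow : ∀ t, ((1 / (N : ℝ)) ^ D) ≤ y t := fun t => le_max_right _ _
    have hypos : ∀ t, 0 < y t := fun t => lt_of_lt_of_le (by positivity) (hylow t)
    have h4N : (N : ℝ) < 4 ^ N := by exact_mod_cast Nat.lt_pow_self (by norm_num : 1 < 4)
    have h1 := LAY.sum_layer (range N) D N hD y ((D : ℝ) * (D + 2)) (by positivity)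
      (by
        intro t _
        refine lt_of_lt_of_le ?_ (hylow t)
        refine pow_lt_pow_left₀ ?_ (by positivity) (by omega)
        rw [div_pow, one_pow]
        exact one_div_lt_one_div_of_lt hN0 h4N)
      (by
        intro j _
        rw [Finset.card_range]
        by_cases hj : 1 ≤ (1 / 4 : ℝ) ^ j * N
        · have h1 := RIM.count hR D hD N hN P hP S hS s hs hSs ((1 / 4 : ℝ) ^ j) (by positivity) hj
          refine le_trans ?_ (h1.trans (le_of_eq (by ring)))
          have h2 : ((range N).filter fun t => y t ≤ ((1 / 4 : ℝ) ^ j) ^ D) ⊆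
              ((range N).filter fun t : ℕ =>
                |P.eval ((t : ℝ) / N)| ≤ ((1 / 4 : ℝ) ^ j) ^ D * S) := by
            intro t ht
            rw [Finset.mem_filter] at ht ⊢
            refine ⟨ht.1, ?_⟩
            have h3 := (le_max_left _ _).trans ht.2
            rwa [div_le_iff₀ hS] at h3
          exact_mod_cast Finset.card_le_card h2
        · push Not at hj
          have h1 : ((range N).filter fun t => y t ≤ ((1 / 4 : ℝ) ^ j) ^ D) = ∅ := by
            rw [Finset.filter_eq_empty_iff]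
            intro t _ hcon
            have h2 := (hylow t).trans hcon
            have h3 : (1 / 4 : ℝ) ^ j < 1 / N := by
              rw [lt_div_iff₀ hN0]
              exact hj
            have h4 : ((1 / 4 : ℝ) ^ j) ^ D < (1 / (N : ℝ)) ^ D :=
              pow_lt_pow_left₀ h3 (by positivity) (by omega)
            linarith
          rw [h1, Finset.card_empty]
          push_cast
          positivity)
    rw [Finset.card_range] at h1
    have h2 := RIM.count hR D hD N hN P hP S hS s hs hSs (1 / (N : ℝ)) (by positivity)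
      (by rw [one_div, inv_mul_cancel₀ hN0.ne'])
    have h2' : (1 / (N : ℝ)) * N = 1 := by rw [one_div, inv_mul_cancel₀ hN0.ne']
    rw [h2', mul_one] at h2
    have h3 : ∀ t ∈ range N, wt K (max (|P.eval ((t : ℝ) / N)| / S) ((1 / (N : ℝ)) ^ K)) ≤
        (1 + Real.exp (-(Real.log (y t)) / (2 * D))) +
          (if |P.eval ((t : ℝ) / N)| ≤ (1 / (N : ℝ)) ^ D * S then (N : ℝ) else 0) := by
      intro t _
      by_cases h4 : |P.eval ((t : ℝ) / N)| ≤ (1 / (N : ℝ)) ^ D * S
      · rw [if_pos h4]
        have h5 : wt K (max (|P.eval ((t : ℝ) / N)| / S) ((1 / (N : ℝ)) ^ K)) ≤ N := by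
          have h5' : (0 : ℝ) < (1 / (N : ℝ)) ^ K := by positivity
          exact (wt_anti h5' (le_max_right _ _)).trans (le_of_eq (wt_pow hK hN))
        have h6 := Real.exp_pos (-(Real.log (y t)) / (2 * D))
        linarith
      · rw [if_neg h4, add_zero]
        have h5 : max (|P.eval ((t : ℝ) / N)| / S) ((1 / (N : ℝ)) ^ K) = y t := by
          push Not at h4
          have h6 : (1 / (N : ℝ)) ^ D ≤ |P.eval ((t : ℝ) / N)| / S := by
            rw [le_div_iff₀ hS]
            exact h4.le
          have h7 : (1 / (N : ℝ)) ^ K ≤ (1 / (N : ℝ)) ^ D := by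
            refine pow_le_pow_of_le_one (by positivity) ?_ (by omega)
            rw [div_le_one hN0]
            exact_mod_cast hN
          rw [hy]
          simp only
          rw [max_eq_left h6, max_eq_left (h7.trans h6)]
        rw [h5]
        exact wt_comp hD hDK
    refine (Finset.sum_le_sum h3).trans ?_
    rw [Finset.sum_add_distrib, Finset.sum_add_distrib, Finset.sum_const, nsmul_eq_mul, mul_one,
      Finset.card_range, ← Finset.sum_filter, Finset.sum_const, nsmul_eq_mul]
    have h5 : (((range N).filter fun t : ℕ =>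
        |P.eval ((t : ℝ) / N)| ≤ (1 / (N : ℝ)) ^ D * S).card : ℝ) * N ≤ D * (D + 2) * N :=
      mul_le_mul_of_nonneg_right h2 hN0.le
    linarith

/-- Several variables. -/
lemma several (hR : RMGStmt) (D K : ℕ) (hK : 1 ≤ K) (hDK : 2 * D ≤ K) : ∀ n : ℕ, ∃ c : ℝ, 1 ≤ c ∧
    ∀ (N : ℕ) (P : MvPolynomial (Fin n) ℝ) (S : ℝ) (s : Fin n → ℝ), 1 ≤ N →
    (∀ i, P.degreeOf i ≤ D) → 0 < S → (∀ i, s i ∈ Set.Icc (0 : ℝ) 1) →
    S ≤ |MvPolynomial.eval s P| →
    ∑ x : Fin n → Fin N, wt K (max (|MvPolynomial.eval (fun i => ((x i : ℕ) : ℝ) / N) P| / S)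
      ((1 / (N : ℝ)) ^ K)) ≤ c * (N : ℝ) ^ n := by
  intro n
  induction n with
  | zero =>
    refine ⟨1, le_refl 1, ?_⟩
    intro N P S s hN hP hS hs hSs
    rw [pow_zero, mul_one]
    have h1 : ∀ x : Fin 0 → Fin N, wt K (max (|MvPolynomial.eval
        (fun i => ((x i : ℕ) : ℝ) / N) P| / S) ((1 / (N : ℝ)) ^ K)) ≤ 1 := by
      intro x
      refine wt_le_one (le_max_of_le_left ?_)
      have h2 : (fun i => ((x i : ℕ) : ℝ) / N) = s := by
        funext i
        exact i.elim0
      rw [h2, le_div_iff₀ hS, one_mul]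
      exact hSs
    refine (Finset.sum_le_sum fun x _ => h1 x).trans ?_
    rw [Finset.sum_const, nsmul_eq_mul, mul_one, Finset.card_univ]
    simp
  | succ n ih =>
    obtain ⟨c, hc, ih⟩ := ih
    set c₁ : ℝ := 2 + 5 * (D * (D + 2)) with hc₁
    have hc₁1 : 1 ≤ c₁ := by
      have : (0 : ℝ) ≤ (D : ℝ) * (D + 2) := by positivity
      linarith
    refine ⟨c₁ * (1 + c), by nlinarith, ?_⟩
    intro N P S s hN hP hS hs hSs
    have hN0 : (0 : ℝ) < N := by exact_mod_cast hN
    have hNK : (0 : ℝ) < (1 / (N : ℝ)) ^ K := by positivity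
    -- the slice
    have hsl := ih N (RMN.slice n P (s 0)) S (fun i => s i.succ) hN
      (RMN.degreeOf_slice n P (s 0) D hP) hS (fun i => hs i.succ)
      (by
        rw [RMN.eval_slice]
        have : (Fin.cons (s 0) (fun i => s i.succ) : Fin (n + 1) → ℝ) = s := by
          funext i
          refine Fin.cases ?_ (fun j => ?_) i
          · rfl
          · rfl
        rw [this]
        exact hSs)
    -- the lines
    have hline : ∀ x : Fin n → Fin N,
        ∑ a : Fin N, wt K (max (|MvPolynomial.eval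
          (fun i => (((Fin.cons a x : Fin (n + 1) → Fin N) i : ℕ) : ℝ) / N) P| / S)
            ((1 / (N : ℝ)) ^ K)) ≤
          c₁ * N * (1 + wt K (max (|MvPolynomial.eval (fun i => ((x i : ℕ) : ℝ) / N)
            (RMN.slice n P (s 0))| / S) ((1 / (N : ℝ)) ^ K))) := by
      intro x
      set q : Polynomial ℝ := RMN.line n P (fun i => ((x i : ℕ) : ℝ) / N) with hq
      have hqd : q.natDegree ≤ D := RMN.natDegree_line n P _ D hP
      have hcons : ∀ b : ℝ, q.eval b = MvPolynomial.eval
          (Fin.cons b (fun i => ((x i : ℕ) : ℝ) / N) : Fin (n + 1) → ℝ) P :=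
        fun b => RMN.eval_line n P b _
      have hg : MvPolynomial.eval (fun i => ((x i : ℕ) : ℝ) / N) (RMN.slice n P (s 0)) =
          q.eval (s 0) := by
        rw [RMN.eval_slice, hcons]
      have hsum : ∑ a : Fin N, wt K (max (|MvPolynomial.eval
          (fun i => (((Fin.cons a x : Fin (n + 1) → Fin N) i : ℕ) : ℝ) / N) P| / S)
            ((1 / (N : ℝ)) ^ K)) =
          ∑ t ∈ range N, wt K (max (|q.eval ((t : ℝ) / N)| / S) ((1 / (N : ℝ)) ^ K)) := by
        rw [Finset.sum_range]
        refine Finset.sum_congr rfl fun a _ => ?_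
        have hx : (fun i => (((Fin.cons a x : Fin (n + 1) → Fin N) i : ℕ) : ℝ) / N) =
            (Fin.cons (((a : ℕ) : ℝ) / N) (fun i => ((x i : ℕ) : ℝ) / N) : Fin (n + 1) → ℝ) := by
          funext i
          refine Fin.cases ?_ (fun j => ?_) i
          · rfl
          · rfl
        rw [hcons, hx]
      rw [hsum, hg]
      set G : ℝ := |q.eval (s 0)| with hG
      set Yw : ℝ := wt K (max (G / S) ((1 / (N : ℝ)) ^ K)) with hYw
      have hYw0 : 0 < Yw := wt_pos _ _
      rcases le_or_gt S G with h1 | h1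
      · have h2 := one_var hR D K hK hDK N hN q hqd S hS (s 0) (hs 0) h1
        refine h2.trans ?_
        have : 0 ≤ c₁ * N * Yw := by positivity
        nlinarith
      · rcases lt_or_ge G ((1 / (N : ℝ)) ^ K * S) with h2 | h2
        · -- the trivial bound
          have h3 : Yw = N := by
            rw [hYw, max_eq_right, wt_pow hK hN]
            rw [div_le_iff₀ hS]
            exact h2.le
          have h4 : ∑ t ∈ range N, wt K (max (|q.eval ((t : ℝ) / N)| / S)
              ((1 / (N : ℝ)) ^ K)) ≤ ∑ t ∈ range N, (N : ℝ) := by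
            refine Finset.sum_le_sum fun t _ => ?_
            refine (wt_anti hNK (le_max_right _ _)).trans (le_of_eq ?_)
            rw [wt_pow hK hN]
          rw [Finset.sum_const, nsmul_eq_mul, Finset.card_range] at h4
          rw [h3]
          refine h4.trans ?_
          nlinarith [mul_nonneg hN0.le hN0.le]
        · have hG0 : 0 < G := lt_of_lt_of_le (by positivity) h2
          have h3 := one_var hR D K hK hDK N hN q hqd G hG0 (s 0) (hs 0) le_rfl
          have h4 : Yw = wt K (G / S) := by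
            rw [hYw, max_eq_left]
            rw [le_div_iff₀ hS]
            exact h2
          have h5 : ∀ t ∈ range N, wt K (max (|q.eval ((t : ℝ) / N)| / S)
              ((1 / (N : ℝ)) ^ K)) ≤
              wt K (G / S) * wt K (max (|q.eval ((t : ℝ) / N)| / G) ((1 / (N : ℝ)) ^ K)) := by
            intro t _
            rw [← wt_mul (by positivity) (lt_of_lt_of_le hNK (le_max_right _ _))]
            refine wt_anti (mul_pos (by positivity) (lt_of_lt_of_le hNK (le_max_right _ _))) ?_
            rw [mul_max_of_nonneg _ _ (by positivity)]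
            refine max_le_max ?_ ?_
            · refine le_of_eq ?_
              field_simp
            · refine mul_le_of_le_one_left hNK.le ?_
              rw [div_le_one hS]
              exact h1.le
          refine (Finset.sum_le_sum h5).trans ?_
          rw [← Finset.mul_sum, ← h4]
          have h6 := mul_le_mul_of_nonneg_left h3 hYw0.le
          have h7 : 0 ≤ c₁ * N := by positivity
          nlinarith [h6, h7]
    have e1 : ∑ x : Fin (n + 1) → Fin N, wt K (max (|MvPolynomial.eval
          (fun i => ((x i : ℕ) : ℝ) / N) P| / S) ((1 / (N : ℝ)) ^ K)) =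
        ∑ x : Fin n → Fin N, ∑ a : Fin N, wt K (max (|MvPolynomial.eval
          (fun i => (((Fin.cons a x : Fin (n + 1) → Fin N) i : ℕ) : ℝ) / N) P| / S)
            ((1 / (N : ℝ)) ^ K)) := by
      rw [← (Fin.consEquiv (fun _ : Fin (n + 1) => Fin N)).sum_comp, Fintype.sum_prod_type,
        Finset.sum_comm]
      rfl
    rw [e1]
    refine (Finset.sum_le_sum fun x _ => hline x).trans ?_
    rw [← Finset.mul_sum, Finset.sum_add_distrib, Finset.sum_const, nsmul_eq_mul, mul_one,
      Finset.card_univ, Fintype.card_fun, Fintype.card_fin, Fintype.card_fin]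
    push_cast
    have h8 : (N : ℝ) ^ n + ∑ x : Fin n → Fin N, wt K (max (|MvPolynomial.eval
        (fun i => ((x i : ℕ) : ℝ) / N) (RMN.slice n P (s 0))| / S) ((1 / (N : ℝ)) ^ K)) ≤
        (1 + c) * (N : ℝ) ^ n := by linarith
    have h9 := mul_le_mul_of_nonneg_left h8 (by positivity : (0 : ℝ) ≤ c₁ * N)
    refine h9.trans (le_of_eq ?_)
    rw [pow_succ]
    ring

end RIK

/-- **Remez inequality in the mean**, several variables, with explicit coefficient. -/
theorem rik_thm (hR : RMGStmt) (hG : GVIStmt) : RIKStmt := by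
  intro n D K hDK
  rcases Nat.eq_zero_or_pos K with hK | hK
  · subst hK
    refine ⟨0, le_refl 0, ?_⟩
    intro Ω _ p N Y P S hp hP hS hex
    simp only [Nat.cast_zero, zero_mul, sub_zero, pow_zero, div_one]
    have h1 : Ex p (fun _ => Real.log S) ≤ Ex p (fun ω => Real.log (max
        |MvPolynomial.eval (fun i => ((Y ω i : ℕ) : ℝ) / N) P| S)) := by
      refine Ex_mono hp.nonneg fun ω _ => ?_
      exact Real.log_le_log hS (le_max_right _ _)
    rwa [Ex_const hp.sum_one] at h1
  obtain ⟨c, hc, hsev⟩ := RIK.several hR D K hK hDK n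
  have hK0 : (0 : ℝ) < K := by exact_mod_cast hK
  refine ⟨Real.log c, Real.log_nonneg hc, ?_⟩
  intro Ω _ p N Y P S hp hP hS hex
  obtain ⟨s, hs, hSs⟩ := hex
  have hΔ : 0 ≤ n * Real.log N - H p Y := by
    have h1 := hG Ω (Fin n → Fin N) p Y univ (fun _ => 0) hp (fun ω => Finset.mem_univ _)
    rw [Ex_const hp.sum_one] at h1
    simp only [Real.exp_zero, Finset.sum_const, nsmul_eq_mul, mul_one] at h1
    rw [Finset.card_univ, Fintype.card_fun, Fintype.card_fin, Fintype.card_fin] at h1
    push_cast at h1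
    rw [Real.log_pow] at h1
    by_cases h0 : ((N : ℝ) ^ n) = 0
    · rw [h0, div_zero, Real.log_zero] at h1
      linarith
    · rw [div_self h0, Real.log_one] at h1
      linarith
  have hne : Nonempty Ω := by
    by_contra h
    rw [not_nonempty_iff] at h
    have h1 := hp.sum_one
    simp at h1
  obtain ⟨ω₀⟩ := hne
  rcases Nat.eq_zero_or_pos N with hN | hN
  · subst hN
    have hn : n = 0 := by
      by_contra hn
      exact (Y ω₀ ⟨0, Nat.pos_of_ne_zero hn⟩).elim0
    subst hn
    have h1 : Ex p (fun _ => Real.log S) ≤ Ex p (fun ω => Real.log (max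
        |MvPolynomial.eval (fun i => ((Y ω i : ℕ) : ℝ) / (0 : ℕ)) P|
          (S / ((0 : ℕ) : ℝ) ^ K))) := by
      refine Ex_mono hp.nonneg fun ω _ => ?_
      refine Real.log_le_log hS (le_max_of_le_left ?_)
      have h2 : (fun i => ((Y ω i : ℕ) : ℝ) / ((0 : ℕ) : ℝ)) = s := by
        funext i
        exact i.elim0
      rw [h2]
      exact hSs
    rw [Ex_const hp.sum_one] at h1
    have h2 : 0 ≤ (K : ℝ) *
        (((0 : ℕ) : ℝ) * Real.log ((0 : ℕ) : ℝ) - H p Y + Real.log c) :=
      mul_nonneg hK0.le (add_nonneg hΔ (Real.log_nonneg hc))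
    exact (sub_le_self _ h2).trans h1
  · have hN0 : (0 : ℝ) < N := by exact_mod_cast hN
    have hNn : (0 : ℝ) < (N : ℝ) ^ n := pow_pos hN0 n
    have h1 := hsev N P S s hN hP hS hs hSs
    set y : (Fin n → Fin N) → ℝ := fun x =>
      max (|MvPolynomial.eval (fun i => ((x i : ℕ) : ℝ) / N) P| / S) ((1 / (N : ℝ)) ^ K) with hy
    have h2 := hG Ω (Fin n → Fin N) p Y univ (fun x => -(Real.log (y x)) / K) hp
      (fun ω => Finset.mem_univ _)
    have hcard : ((univ : Finset (Fin n → Fin N)).card : ℝ) = (N : ℝ) ^ n := by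
      rw [Finset.card_univ, Fintype.card_fun, Fintype.card_fin, Fintype.card_fin]
      push_cast
      rfl
    rw [hcard, Real.log_pow] at h2
    have hne : (univ : Finset (Fin n → Fin N)).Nonempty := ⟨Y ω₀, Finset.mem_univ _⟩
    have h3 : 0 < ∑ x : Fin n → Fin N, Real.exp (-(Real.log (y x)) / K) :=
      Finset.sum_pos (fun x _ => Real.exp_pos _) hne
    have h4 : Real.log ((∑ x : Fin n → Fin N, Real.exp (-(Real.log (y x)) / K)) / (N : ℝ) ^ n) ≤
        Real.log c := by
      refine Real.log_le_log (div_pos h3 hNn) ?_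
      rw [div_le_iff₀ hNn]
      exact h1
    have h5 : Ex p (fun ω => -(Real.log (y (Y ω))) / K) =
        -(1 / (K : ℝ)) * Ex p (fun ω => Real.log (y (Y ω))) := by
      rw [← Ex_smul]
      congr 1
      funext ω
      ring
    rw [h5] at h2
    have h6 : -(1 / (K : ℝ)) * Ex p (fun ω => Real.log (y (Y ω))) ≤
        n * Real.log N - H p Y + Real.log c := by linarith
    have h7 : (K : ℝ) * (-(1 / (K : ℝ)) * Ex p (fun ω => Real.log (y (Y ω)))) =
        -Ex p (fun ω => Real.log (y (Y ω))) := by
      field_simp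
    have h8 := mul_le_mul_of_nonneg_left h6 hK0.le
    rw [h7] at h8
    have h9 : Ex p (fun ω => Real.log (y (Y ω))) =
        Ex p (fun ω => Real.log (max |MvPolynomial.eval (fun i => ((Y ω i : ℕ) : ℝ) / N) P|
          (S / (N : ℝ) ^ K))) - Real.log S := by
      have h10 := Ex_sub p (fun ω => Real.log
        (max |MvPolynomial.eval (fun i => ((Y ω i : ℕ) : ℝ) / N) P| (S / (N : ℝ) ^ K)))
        (fun _ => Real.log S)
      rw [Ex_const hp.sum_one] at h10
      rw [← h10]
      congr 1
      funext ω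
      have h11 : y (Y ω) = max |MvPolynomial.eval (fun i => ((Y ω i : ℕ) : ℝ) / N) P|
          (S / (N : ℝ) ^ K) / S := by
        rw [hy]
        simp only
        rw [← max_div_div_right hS.le]
        congr 1
        rw [one_div, inv_pow]
        field_simp
      rw [h11, Real.log_div (ne_of_gt (lt_of_lt_of_le (by positivity) (le_max_right _ _))) hS.ne']
    rw [h9] at h8
    linarith

end Pool.KAL
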