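import Pool.Agent.H56.KAL.Stmts2

/-!
# Layers: mean logarithms from counts of small values
-/

set_option autoImplicit false

namespace Pool.KAL

open Finset Real
open Pool.Agent.H49.Ent Pool.Agent.H32.Dense Pool.STK Pool.KAF

namespace LAY

/-- Dyadic layers of a negative power. -/
lemma layer (B : ℕ) (hB : 1 ≤ B) (y : ℝ) : ∀ L : ℕ, (((1 / 4 : ℝ) ^ L) ^ B < y) →
    Real.exp (-(Real.log y) / (2 * B)) ≤
      1 + ∑ j ∈ range L, (if y ≤ ((1 / 4 : ℝ) ^ j) ^ B then (2 : ℝ) ^ (j + 1) else 0) := by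
  intro L
  have hB0 : (0 : ℝ) < B := by exact_mod_cast hB
  induction L with
  | zero =>
    intro h
    simp only [pow_zero, one_pow] at h
    rw [Finset.sum_range_zero, add_zero]
    have h1 : 0 ≤ Real.log y := Real.log_nonneg h.le
    rw [← Real.exp_zero]
    refine Real.exp_le_exp.2 ?_
    rw [neg_div]
    have : 0 ≤ Real.log y / (2 * B) := by positivity
    linarith
  | succ L ih =>
    intro h
    rw [Finset.sum_range_succ]
    by_cases hy : y ≤ ((1 / 4 : ℝ) ^ L) ^ B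
    · rw [if_pos hy]
      have hs : 0 ≤ ∑ j ∈ range L,
          (if y ≤ ((1 / 4 : ℝ) ^ j) ^ B then (2 : ℝ) ^ (j + 1) else 0) := by
        refine Finset.sum_nonneg fun j _ => ?_
        split_ifs
        · positivity
        · exact le_refl 0
      have hpos : (0 : ℝ) < ((1 / 4 : ℝ) ^ (L + 1)) ^ B := by positivity
      have h1 : Real.log (((1 / 4 : ℝ) ^ (L + 1)) ^ B) ≤ Real.log y :=
        Real.log_le_log hpos h.le
      rw [Real.log_pow, Real.log_pow] at h1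
      have h2 : Real.log (1 / 4 : ℝ) = -(2 * Real.log 2) := by
        rw [one_div, Real.log_inv, show (4 : ℝ) = 2 ^ 2 by norm_num, Real.log_pow]
        push_cast
        ring
      rw [h2] at h1
      have h3 : -(Real.log y) / (2 * B) ≤ ((L + 1 : ℕ) : ℝ) * Real.log 2 := by
        rw [div_le_iff₀ (by positivity)]
        nlinarith [h1]
      have h4 : Real.exp (-(Real.log y) / (2 * B)) ≤ (2 : ℝ) ^ (L + 1) := by
        refine (Real.exp_le_exp.2 h3).trans ?_
        rw [Real.exp_nat_mul, Real.exp_log (by norm_num : (0 : ℝ) < 2)]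
      linarith
    · rw [if_neg hy, add_zero]
      exact ih (lt_of_not_ge hy)

/-- The sum of a negative power, from the counts of the layers. -/
lemma sum_layer {S : Type} (F : Finset S) (B L : ℕ) (hB : 1 ≤ B) (y : S → ℝ) (c : ℝ) (hc0 : 0 ≤ c)
    (hL : ∀ s ∈ F, ((1 / 4 : ℝ) ^ L) ^ B < y s)
    (hc : ∀ j < L, ((F.filter fun s => y s ≤ ((1 / 4 : ℝ) ^ j) ^ B).card : ℝ) ≤
      c * (1 / 4 : ℝ) ^ j * F.card) :
    ∑ s ∈ F, Real.exp (-(Real.log (y s)) / (2 * B)) ≤ (1 + 4 * c) * F.card := by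
  classical
  have h1 : ∑ s ∈ F, Real.exp (-(Real.log (y s)) / (2 * B)) ≤ ∑ s ∈ F,
      (1 + ∑ j ∈ range L, (if y s ≤ ((1 / 4 : ℝ) ^ j) ^ B then (2 : ℝ) ^ (j + 1) else 0)) :=
    Finset.sum_le_sum fun s hs => layer B hB (y s) L (hL s hs)
  have h2 : ∑ s ∈ F,
      (1 + ∑ j ∈ range L, (if y s ≤ ((1 / 4 : ℝ) ^ j) ^ B then (2 : ℝ) ^ (j + 1) else 0)) =
      F.card + ∑ j ∈ range L, (2 : ℝ) ^ (j + 1) *
        ((F.filter fun s => y s ≤ ((1 / 4 : ℝ) ^ j) ^ B).card : ℝ) := by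
    rw [Finset.sum_add_distrib, Finset.sum_const, nsmul_eq_mul, mul_one, Finset.sum_comm]
    congr 1
    refine Finset.sum_congr rfl fun j _ => ?_
    rw [← Finset.sum_filter, Finset.sum_const, nsmul_eq_mul, mul_comm]
  have h3 : ∑ j ∈ range L, (2 : ℝ) ^ (j + 1) *
        ((F.filter fun s => y s ≤ ((1 / 4 : ℝ) ^ j) ^ B).card : ℝ) ≤
      ∑ j ∈ range L, (2 * c * F.card) * (1 / 2 : ℝ) ^ j := by
    refine Finset.sum_le_sum fun j hj => ?_
    have h4 := hc j (Finset.mem_range.1 hj)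
    have h5 : (2 : ℝ) ^ (j + 1) * (c * (1 / 4 : ℝ) ^ j * F.card) =
        (2 * c * F.card) * (1 / 2 : ℝ) ^ j := by
      have h6 : (2 : ℝ) ^ j * (1 / 4 : ℝ) ^ j = (1 / 2 : ℝ) ^ j := by
        rw [← mul_pow]
        norm_num
      rw [pow_succ, ← h6]
      ring
    rw [← h5]
    exact mul_le_mul_of_nonneg_left h4 (by positivity)
  have h6 : ∑ j ∈ range L, (1 / 2 : ℝ) ^ j ≤ 2 := by
    have h7 : ∀ n : ℕ, ∑ j ∈ range n, (1 / 2 : ℝ) ^ j = 2 - 2 * (1 / 2) ^ n := by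
      intro n
      induction n with
      | zero => simp
      | succ n ih =>
        rw [Finset.sum_range_succ, ih, pow_succ]
        ring
    rw [h7]
    have : (0 : ℝ) ≤ 2 * (1 / 2) ^ L := by positivity
    linarith
  rw [← Finset.mul_sum] at h3
  have h8 : (2 * c * F.card) * ∑ j ∈ range L, (1 / 2 : ℝ) ^ j ≤ (2 * c * F.card) * 2 :=
    mul_le_mul_of_nonneg_left h6 (by positivity)
  rw [h2] at h1
  nlinarith [h1, h3, h8]

/-- The mean of the logarithm. -/
lemma mean_layer (hG : GVIStmt) {Ω S : Type} [Fintype Ω] {p : Ω → ℝ} (hp : IsLaw p) (T : Ω → S)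
    (F : Finset S) (hT : ∀ ω, T ω ∈ F) (B L : ℕ) (hB : 1 ≤ B) (y : S → ℝ) (c : ℝ) (hc0 : 0 ≤ c)
    (hL : ∀ s ∈ F, ((1 / 4 : ℝ) ^ L) ^ B < y s)
    (hc : ∀ j < L, ((F.filter fun s => y s ≤ ((1 / 4 : ℝ) ^ j) ^ B).card : ℝ) ≤
      c * (1 / 4 : ℝ) ^ j * F.card) :
    -(2 * B * ((Real.log F.card - H p T) + Real.log (1 + 4 * c))) ≤
      Ex p (fun ω => Real.log (y (T ω))) := by
  have hB0 : (0 : ℝ) < B := by exact_mod_cast hB
  have hne : F.Nonempty := by
    by_contra hF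
    rw [Finset.not_nonempty_iff_eq_empty] at hF
    have : IsEmpty Ω := ⟨fun ω => by simpa [hF] using hT ω⟩
    have h1 := hp.sum_one
    simp at h1
  have hF0 : (0 : ℝ) < F.card := by exact_mod_cast hne.card_pos
  have h1 := hG Ω S p T F (fun s => -(Real.log (y s)) / (2 * B)) hp hT
  have h2 := sum_layer F B L hB y c hc0 hL hc
  have h3 : 0 < ∑ s ∈ F, Real.exp (-(Real.log (y s)) / (2 * B)) :=
    Finset.sum_pos (fun s _ => Real.exp_pos _) hne
  have h4 : Real.log ((∑ s ∈ F, Real.exp (-(Real.log (y s)) / (2 * B))) / F.card) ≤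
      Real.log (1 + 4 * c) := by
    refine Real.log_le_log (div_pos h3 hF0) ?_
    rw [div_le_iff₀ hF0]
    exact h2
  have h5 : Ex p (fun ω => -(Real.log (y (T ω))) / (2 * B)) =
      -(1 / (2 * B)) * Ex p (fun ω => Real.log (y (T ω))) := by
    rw [← Ex_smul]
    congr 1
    funext ω
    ring
  rw [h5] at h1
  have h6 : -(1 / (2 * B)) * Ex p (fun ω => Real.log (y (T ω))) ≤
      Real.log F.card - H p T + Real.log (1 + 4 * c) := by linarith
  have h7 : (2 * (B : ℝ)) * (-(1 / (2 * B)) * Ex p (fun ω => Real.log (y (T ω)))) =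
      -Ex p (fun ω => Real.log (y (T ω))) := by
    field_simp
  have h8 := mul_le_mul_of_nonneg_left h6 (by positivity : (0 : ℝ) ≤ 2 * B)
  rw [h7] at h8
  linarith

end LAY

end Pool.KAL
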